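import Mathlib

set_option autoImplicit false

namespace Pool.Agent.Results.MP_ae7dce_co.Cex74

open Finset

/-- A phylogenetic tree of size `n`: a finite tree with all degrees `1` or `3` whose
degree-one vertices are labelled bijectively by `Fin n`. -/
structure Phylo (n : ℕ) where
  m : ℕ
  G : SimpleGraph (Fin m)
  tree : G.IsTree
  deg : ∀ v, (G.neighborSet v).ncard = 1 ∨ (G.neighborSet v).ncard = 3
  leaf : Fin n → Fin m
  inj : Function.Injective leaf
  leaf_iff : ∀ v, (G.neighborSet v).ncard = 1 ↔ v ∈ Set.range leaf

/-- A caterpillar: the internal vertices induce a path on `n - 2` vertices. -/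
def IsCat {n : ℕ} (T : Phylo n) : Prop :=
  Nonempty (T.G.induce {v | v ∉ Set.range T.leaf} ≃g SimpleGraph.pathGraph (n - 2))

/-- The partitions of the label set (as equivalence relations) obtained by deleting a set of
edges: two labels are in one class iff their leaves lie in one component. -/
def Parts {n : ℕ} (T : Phylo n) : Set (Setoid (Fin n)) :=
  {r | ∃ S : Set (Sym2 (Fin T.m)),
    ∀ i j, r i j ↔ (T.G.deleteEdges S).Reachable (T.leaf i) (T.leaf j)}

/-- The number of partitions with exactly `k` classes common to two trees. -/
noncomputable def common {n : ℕ} (k : ℕ) (T F : Phylo n) : ℕ :=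
  (Parts T ∩ Parts F ∩ {r | Nat.card (Quotient r) = k}).ncard

/-- The minimum over all pairs of phylogenetic trees. -/
noncomputable def s (n k : ℕ) : ℕ := sInf {x | ∃ T F : Phylo n, x = common k T F}

/-- The minimum over all pairs of caterpillars. -/
noncomputable def c (n k : ℕ) : ℕ :=
  sInf {x | ∃ T F : Phylo n, IsCat T ∧ IsCat F ∧ x = common k T F}

def pg (par : Fin 12 → Fin 12) : SimpleGraph (Fin 12) where
  Adj a b := a ≠ b ∧ (par a = b ∨ par b = a)
  symm := ⟨fun _ _ h => ⟨h.1.symm, h.2.symm⟩⟩
  loopless := ⟨fun _ h => h.1 rfl⟩

instance (par : Fin 12 → Fin 12) : DecidableRel (pg par).Adj :=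
  fun _ _ => inferInstanceAs (Decidable (_ ∧ _))

def lf (i : Fin 7) : Fin 12 := ⟨5 + i.1, by omega⟩

lemma nc (par : Fin 12 → Fin 12) (v : Fin 12) :
    ((pg par).neighborSet v).ncard = (pg par).degree v := by
  rw [← SimpleGraph.card_neighborFinset_eq_degree, ← Set.ncard_coe_finset,
    SimpleGraph.coe_neighborFinset]

def mk (par : Fin 12 → Fin 12) (h1 : ∀ v, v ≠ 0 → par v < v)
    (h2 : ∀ v, (pg par).degree v = if v.1 < 5 then 3 else 1) : Phylo 7 where
  m := 12
  G := pg par
  tree := by
    rw [SimpleGraph.isTree_iff_connected_and_card]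
    have h0 : ∀ k, ∀ v : Fin 12, v.1 = k → (pg par).Reachable v 0 := fun k => by
      induction k using Nat.strong_induction_on with
      | _ k ih =>
        intro v hv
        by_cases h : v = 0
        · rw [h]
        · have e : (pg par).Adj v (par v) := ⟨(h1 v h).ne', Or.inl rfl⟩
          exact e.reachable.trans (ih _ (hv ▸ Fin.lt_def.1 (h1 v h)) _ rfl)
    refine ⟨⟨fun u v => (h0 _ u rfl).trans (h0 _ v rfl).symm⟩, ?_⟩
    have h := (pg par).sum_degrees_eq_twice_card_edges
    simp only [h2] at h
    have h3 : (∑ v : Fin 12, if v.1 < 5 then 3 else 1) = 22 := by decide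
    rw [Nat.card_eq_fintype_card, Nat.card_eq_fintype_card, ← SimpleGraph.edgeFinset_card,
      Fintype.card_fin]
    omega
  deg v := by rw [nc, h2]; split_ifs <;> simp
  leaf := lf
  inj := by decide
  leaf_iff v := by
    rw [nc, h2, Set.mem_range]
    revert v
    decide

def parT : Fin 12 → Fin 12 := ![0, 0, 0, 0, 2, 4, 1, 1, 3, 2, 4, 3]
def parF : Fin 12 → Fin 12 := ![0, 0, 0, 0, 1, 4, 2, 1, 4, 3, 2, 3]
def parC : Fin 12 → Fin 12 := ![0, 0, 1, 2, 3, 0, 0, 1, 2, 3, 4, 4]

def T0 : Phylo 7 := mk parT (by decide) (by decide +kernel)
def F0 : Phylo 7 := mk parF (by decide) (by decide +kernel)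
def C0 : Phylo 7 := mk parC (by decide) (by decide +kernel)

def dig (b n i : ℕ) : ℕ := n / b ^ i % b

def sd (N v a : ℕ) : ℕ := dig 3 N (12 * v + a)

def nT : ℕ := 9439694802587676601072799973
def nF : ℕ := 1066134643697385820679469489

lemma sep {V : Type} {H : SimpleGraph V} (v : V) (sd : V → ℕ)
    (h : ∀ a b, H.Adj a b → a = v ∨ b = v ∨ sd a = sd b) {a b : V} (hab : H.Reachable a b)
    (hne : sd a ≠ sd b) : H.Reachable a v := by
  obtain ⟨w⟩ := hab
  induction w with
  | nil => exact absurd rfl hne
  | cons e w ih =>
    rcases h _ _ e with rfl | rfl | h1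
    · rfl
    · exact e.reachable
    · exact e.reachable.trans (ih (h1 ▸ hne))

lemma nec {par : Fin 12 → Fin 12} {h1 h2} (N : ℕ)
    (h : ∀ v a b : Fin 12, v.1 < 5 → (pg par).Adj a b → a = v ∨ b = v ∨ sd N v a = sd N v b)
    {r : Setoid (Fin 7)} (hr : r ∈ Parts (mk par h1 h2)) {i j i' j' : Fin 7} (hij : r i j)
    (hij' : r i' j') {v : ℕ} (hv : v < 5) (h3 : sd N v (5 + i) ≠ sd N v (5 + j))
    (h4 : sd N v (5 + i') ≠ sd N v (5 + j')) : r i i' := by
  obtain ⟨S, hS⟩ := hr
  have h' : ∀ a b, ((pg par).deleteEdges S).Adj a b →
      a = ⟨v, by omega⟩ ∨ b = ⟨v, by omega⟩ ∨ sd N v a = sd N v b :=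
    fun a b hab => h ⟨v, by omega⟩ a b hv (SimpleGraph.deleteEdges_adj.1 hab).1
  exact (hS i i').2 ((sep _ (fun a : Fin 12 => sd N v a) h' ((hS i j).1 hij) h3).trans
    (sep _ (fun a : Fin 12 => sd N v a) h' ((hS i' j').1 hij') h4).symm)

def L4 : List ℕ := [0, 1, 2, 3]
def L5 : List ℕ := [0, 1, 2, 3, 4]
def L7 : List ℕ := [0, 1, 2, 3, 4, 5, 6]

lemma m4 {a : ℕ} : a ∈ L4 ↔ a < 4 := by
  simp only [L4, List.mem_cons, List.not_mem_nil, or_false]; omega
lemma m5 {a : ℕ} : a ∈ L5 ↔ a < 5 := by
  simp only [L5, List.mem_cons, List.not_mem_nil, or_false]; omega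
lemma m7 {a : ℕ} : a ∈ L7 ↔ a < 7 := by
  simp only [L7, List.mem_cons, List.not_mem_nil, or_false]; omega

def cf (N v i j i' j' : ℕ) : Bool :=
  !Nat.beq (sd N v (5 + i)) (sd N v (5 + j)) && !Nat.beq (sd N v (5 + i')) (sd N v (5 + j'))

def upF (x : ℕ → ℕ) : Bool :=
  (L4.any fun a => L7.all fun i => !Nat.beq (x i) a) ||
  (L7.any fun i => L7.any fun j => Nat.blt i j && Nat.beq (x i) (x j) &&
    L7.any fun i' => !Nat.beq (x i) (x i') && L7.any fun j' => Nat.blt i' j' &&
      Nat.beq (x i') (x j') && L5.any fun v => cf nT v i j i' j' || cf nF v i j i' j') ||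
  (L4.any fun a => Nat.beq (L7.filter fun i => Nat.beq (x i) a).length 4 &&
    L7.all fun i => L7.all fun j => !Nat.beq (x i) (x j) || Nat.beq i j || Nat.beq (x i) a)

def upC (k : ℕ) : Bool := (List.range 2048).all fun m => upF (dig 4 (2048 * k + m))

lemma up0 : upC 0 = true := by decide +kernel
lemma up1 : upC 1 = true := by decide +kernel
lemma up2 : upC 2 = true := by decide +kernel
lemma up3 : upC 3 = true := by decide +kernel
lemma up4 : upC 4 = true := by decide +kernel
lemma up5 : upC 5 = true := by decide +kernel
lemma up6 : upC 6 = true := by decide +kernel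
lemma up7 : upC 7 = true := by decide +kernel

lemma up (n : ℕ) (hn : n < 16384) : upF (dig 4 n) = true := by
  have h : ∀ k < 8, upC k = true := fun k hk => by
    interval_cases k
    exacts [up0, up1, up2, up3, up4, up5, up6, up7]
  have h2 := h (n / 2048) (by omega)
  rw [upC, List.all_eq_true] at h2
  have := h2 (n % 2048) (List.mem_range.2 (Nat.mod_lt _ (by norm_num)))
  rwa [Nat.div_add_mod] at this

lemma enc {b : ℕ} (x : Fin 7 → Fin b) : ∃ n < b ^ 7, ∀ i : Fin 7, dig b n i = x i :=
  ⟨finFunctionFinEquiv x, (finFunctionFinEquiv x).2, fun i => by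
    rw [dig, ← finFunctionFinEquiv_symm_apply_val, Equiv.symm_apply_apply]⟩

def rK (K : Finset (Fin 7)) : Setoid (Fin 7) where
  r i j := i = j ∨ (i ∈ K ∧ j ∈ K)
  iseqv := ⟨fun _ => Or.inl rfl, fun h => h.imp Eq.symm And.symm, fun h1 h2 => by
    rcases h1 with rfl | h1
    · exact h2
    rcases h2 with rfl | h2
    · exact Or.inr h1
    · exact Or.inr ⟨h1.1, h2.2⟩⟩

lemma upper : common 4 T0 F0 ≤ 35 := by
  have : Parts T0 ∩ Parts F0 ∩ {r | Nat.card (Quotient r) = 4} ⊆
      rK '' (powersetCard 4 univ : Finset (Finset (Fin 7))) := by
    rintro r ⟨⟨h1, h2⟩, h3⟩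
    have e := Finite.equivFinOfCardEq h3
    set x : Fin 7 → Fin 4 := fun i => e (Quotient.mk r i) with hx
    have hr : ∀ i j, x i = x j ↔ r i j := fun i j => by
      rw [hx, e.injective.eq_iff]
      exact Quotient.eq
    obtain ⟨n, hn, hd⟩ := enc x
    have hd' : ∀ i (h : i < 7), dig 4 n i = x ⟨i, h⟩ := fun i h => hd ⟨i, h⟩
    have hu := up n hn
    simp only [upF, cf, Bool.or_eq_true, List.any_eq_true, List.all_eq_true, Bool.and_eq_true,
      Bool.not_eq_true', Nat.beq_eq, Nat.blt_eq, m4, m5, m7, ← Bool.not_eq_true] at hu
    obtain ⟨a, ha, hb⟩ : ∃ a, (univ.filter fun i => x i = a).card = 4 ∧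
        ∀ i j, x i = x j → i = j ∨ x i = a := by
      rcases hu with (⟨a, ha, h⟩ | ⟨i, hi, j, hj, ⟨-, p⟩, i', hi', q, j', hj', ⟨-, t⟩, v, hv, h⟩) |
        ⟨a, ha, h, h'⟩
      · obtain ⟨i, hi⟩ := Quotient.exists_rep (e.symm ⟨a, ha⟩)
        refine absurd ?_ (h i i.2)
        rw [hd, hx]
        simp only [hi, e.apply_symm_apply]
      · rw [hd' i hi, hd' j hj, Fin.val_inj, hr] at p
        rw [hd' i' hi', hd' j' hj', Fin.val_inj, hr] at t
        rw [hd' i hi, hd' i' hi', Fin.val_inj, hr] at q
        rcases h with h | h
        · exact absurd (nec nT (by decide +kernel) h1 p t hv h.1 h.2) q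
        · exact absurd (nec nF (by decide +kernel) h2 p t hv h.1 h.2) q
      · refine ⟨⟨a, ha⟩, ?_, fun i j hij => ?_⟩
        · refine Eq.trans ?_ h
          rw [card_filter, Fin.sum_univ_seven, ← List.countP_eq_length_filter]
          simp only [L7, List.countP_cons, List.countP_nil, Nat.beq_eq, Fin.ext_iff, ← hd]
          simp only [Fin.val_zero, Fin.val_one, Fin.val_two, show ((3 : Fin 7) : ℕ) = 3 from rfl,
            show ((4 : Fin 7) : ℕ) = 4 from rfl, show ((5 : Fin 7) : ℕ) = 5 from rfl,
            show ((6 : Fin 7) : ℕ) = 6 from rfl]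
          omega
        · rcases h' i i.2 j j.2 with (h | h) | h
          · exact absurd (by rw [hd, hd, hij]) h
          · exact Or.inl (Fin.ext h)
          · exact Or.inr (Fin.ext (by rw [← hd, h]))
    refine ⟨_, mem_coe.2 (mem_powersetCard.2 ⟨subset_univ _, ha⟩), ?_⟩
    ext i j
    rw [← hr]
    change i = j ∨ _ ↔ _
    simp only [mem_filter, mem_univ, true_and]
    refine ⟨?_, fun h => (hb i j h).imp id fun h' => ⟨h', h ▸ h'⟩⟩
    rintro (rfl | h)
    · rfl
    · exact h.1.trans h.2.symm
  refine (Set.ncard_le_ncard this).trans ((Set.ncard_image_le).trans ?_)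
  rw [Set.ncard_coe_finset, card_powersetCard]
  decide

def Good (f : Fin 7 → Fin 5) (x : Fin 7 → Fin 4) (h : Fin 5 → Fin 4) : Prop :=
  ∀ i j, i ≠ j → x i = x j → ∀ t, f i ≤ t → t ≤ f j → h t = x i

def f0 : Fin 7 → Fin 5 := ![0, 0, 1, 2, 3, 4, 4]

def Cond (f : Fin 7 → Fin 5) : Prop :=
  ∀ t, (univ.filter fun i => f i = t).card ≤ (univ.filter fun i => f0 i = t).card

lemma cat_struct (T : Phylo 7) (hT : IsCat T) : ∃ f : Fin 7 → Fin 5, Cond f ∧
    ∀ x h, Good f x h → Setoid.ker x ∈ Parts T := by
  classical
  obtain ⟨e⟩ := hT
  set p : Fin 5 → Fin T.m := fun t => (e.symm t).1 with hp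
  have pn : ∀ t, p t ∉ Set.range T.leaf := fun t => (e.symm t).2
  have pinj : Function.Injective p := fun a b h => e.symm.injective (Subtype.ext h)
  have padj : ∀ a b : Fin 5, a.1 + 1 = b.1 ∨ b.1 + 1 = a.1 → T.G.Adj (p a) (p b) := fun a b h =>
    e.symm.map_rel_iff.2 (SimpleGraph.pathGraph_adj.2 h)
  have psur : ∀ v, v ∉ Set.range T.leaf → ∃ t, p t = v := fun v hv =>
    ⟨e ⟨v, hv⟩, by simp [hp]⟩
  have uniq : ∀ i a b, T.G.Adj (T.leaf i) a → T.G.Adj (T.leaf i) b → a = b := fun i a b ha hb => by
    obtain ⟨w, hw⟩ := Set.ncard_eq_one.1 ((T.leaf_iff _).2 ⟨i, rfl⟩)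
    have h1 : a ∈ ({w} : Set _) := hw ▸ ha
    have h2 : b ∈ ({w} : Set _) := hw ▸ hb
    exact h1.trans h2.symm
  have ex : ∀ i, ∃ t, T.G.Adj (T.leaf i) (p t) := fun i => by
    obtain ⟨w, hw⟩ := Set.ncard_eq_one.1 ((T.leaf_iff _).2 ⟨i, rfl⟩)
    have h1 : T.G.Adj (T.leaf i) w := by
      have : w ∈ T.G.neighborSet (T.leaf i) := hw ▸ rfl
      exact this
    by_cases hw' : w ∈ Set.range T.leaf
    · exfalso
      obtain ⟨j, rfl⟩ := hw'
      have : ∀ a b, T.G.Walk a b → a = T.leaf i ∨ a = T.leaf j → b = T.leaf i ∨ b = T.leaf j := by
        intro a b w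
        induction w with
        | nil => exact id
        | cons e w ih =>
          rintro (rfl | rfl)
          · exact ih (Or.inr (uniq i _ _ e h1))
          · exact ih (Or.inl (uniq j _ _ e h1.symm))
      obtain ⟨w⟩ := T.tree.1 (T.leaf i) (p 0)
      rcases this _ _ w (Or.inl rfl) with h | h
      · exact pn 0 ⟨i, h.symm⟩
      · exact pn 0 ⟨j, h.symm⟩
    · obtain ⟨t, rfl⟩ := psur w hw'
      exact ⟨t, h1⟩
  choose f hf using ex
  refine ⟨f, fun t => ?_, fun x h hg => ?_⟩
  · have h3 : (T.G.neighborSet (p t)).ncard = 3 :=
      (T.deg _).resolve_left fun h => pn t ((T.leaf_iff _).1 h)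
    set A := (univ.filter fun i => f i = t).image T.leaf
    set B := (univ.filter fun a : Fin 5 => t.1 + 1 = a.1 ∨ a.1 + 1 = t.1).image p
    have hd : Disjoint A B := disjoint_left.2 fun v hv hv' => by
      obtain ⟨i, -, rfl⟩ := mem_image.1 hv
      obtain ⟨a, -, ha⟩ := mem_image.1 hv'
      exact pn a ⟨i, ha.symm⟩
    have hs : ((A ∪ B : Finset _) : Set _) ⊆ T.G.neighborSet (p t) := fun v hv => by
      rcases mem_union.1 (mem_coe.1 hv) with hv | hv
      · obtain ⟨i, hi, rfl⟩ := mem_image.1 hv
        exact (mem_filter.1 hi).2 ▸ (hf i).symm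
      · obtain ⟨a, ha, rfl⟩ := mem_image.1 hv
        exact padj t a (mem_filter.1 ha).2
    have h4 := Set.ncard_le_ncard hs
    rw [Set.ncard_coe_finset, card_union_of_disjoint hd, card_image_of_injective _ T.inj,
      card_image_of_injective _ pinj, h3] at h4
    have h5 : ∀ t : Fin 5, (univ.filter fun i => f0 i = t).card +
      (univ.filter fun a : Fin 5 => t.1 + 1 = a.1 ∨ a.1 + 1 = t.1).card = 3 := by decide
    have := h5 t
    omega
  · let g : Fin T.m → Fin 4 := fun v =>
      if hv : v ∈ Set.range T.leaf then x hv.choose else h (psur v hv).choose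
    have g1 : ∀ i, g (T.leaf i) = x i := fun i => by
      have hv : T.leaf i ∈ Set.range T.leaf := ⟨i, rfl⟩
      simp only [g, dif_pos hv]
      rw [T.inj hv.choose_spec]
    have g2 : ∀ t, g (p t) = h t := fun t => by
      simp only [g, dif_neg (pn t)]
      rw [pinj (psur _ (pn t)).choose_spec]
    set H := T.G.deleteEdges {e | ∃ a b, e = s(a, b) ∧ g a ≠ g b} with hH
    have hadj : ∀ a b, H.Adj a b ↔ T.G.Adj a b ∧ g a = g b := fun a b => by
      rw [hH, SimpleGraph.deleteEdges_adj]
      refine and_congr_right fun _ => ⟨fun h => by_contra fun hh => h ⟨a, b, rfl, hh⟩, ?_⟩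
      rintro h1 ⟨a', b', h2, h3⟩
      rcases Sym2.eq_iff.1 h2 with ⟨rfl, rfl⟩ | ⟨rfl, rfl⟩
      · exact h3 h1
      · exact h3 h1.symm
    have key : ∀ i j, i ≠ j → x i = x j → f i ≤ f j → H.Reachable (T.leaf i) (T.leaf j) := by
      intro i j hne hx hle
      have h1 : ∀ k, ∀ t : Fin 5, t.1 = (f i).1 + k → t ≤ f j → H.Reachable (T.leaf i) (p t) := by
        intro k
        induction k with
        | zero =>
          intro t ht _
          obtain rfl : t = f i := Fin.ext ht
          exact ((hadj ..).2 ⟨hf i, by rw [g1, g2, hg i j hne hx _ le_rfl hle]⟩).reachable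
        | succ k ih =>
          intro t ht htj
          have htj' : t.1 ≤ (f j).1 := htj
          refine (ih ⟨(f i).1 + k, by omega⟩ rfl (Fin.le_def.2 (by simp only; omega))).trans
            ((hadj ..).2 ⟨padj _ _ (Or.inl (by simp only; omega)), ?_⟩).reachable
          rw [g2, g2, hg i j hne hx t (Fin.le_def.2 (by omega)) htj, hg i j hne hx _
            (Fin.le_def.2 (by simp only; omega)) (Fin.le_def.2 (by simp only; omega))]
      have hle' : (f i).1 ≤ (f j).1 := hle
      exact (h1 ((f j).1 - (f i).1) (f j) (by omega) le_rfl).trans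
        ((hadj ..).2 ⟨hf j, by rw [g1, g2, hg i j hne hx _ hle le_rfl, hx]⟩).reachable.symm
    refine ⟨{e | ∃ a b, e = s(a, b) ∧ g a ≠ g b}, fun i j => ⟨fun hx => ?_, fun hr => ?_⟩⟩
    · have hx' : x i = x j := hx
      by_cases hne : i = j
      · rw [hne]
      rcases le_total (f i) (f j) with hle | hle
      · exact key i j hne hx' hle
      · exact (key j i (Ne.symm hne) hx'.symm hle).symm
    · have : ∀ a b, H.Walk a b → g a = g b := fun a b w => by
        induction w with
        | nil => rfl
        | cons e w ih => exact ((hadj ..).1 e).2.trans ih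
      obtain ⟨w⟩ := hr
      have := this _ _ w
      rwa [g1, g1] at this

def tab : List (ℕ × ℕ) := [
  (974, 336869696), (994, 336869696), (998, 336869696), (1074, 178272832), (1114, 178272832),
  (1122, 178272832), (1194, 178272832), (1198, 178272832), (1214, 178272832), (1222, 178272832),
  (1238, 178272832), (1242, 178272832), (1474, 336869696), (1494, 336869696), (1498, 336869696),
  (1674, 62930496), (1734, 62930496), (1746, 62930496), (1794, 62930496), (1798, 62930496),
  (1834, 62930496), (1846, 62930496), (1858, 62930496), (1866, 62930496), (2074, 89404992),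
  (2114, 89404992), (2122, 89404992), (2174, 62930496), (2234, 62930496), (2246, 62930496),
  (2414, 62930496), (2422, 62930496), (2434, 62930496), (2446, 62930496), (2482, 62930496),
  (2486, 62930496), (2694, 89404992), (2698, 89404992), (2714, 89404992), (2722, 89404992),
  (2738, 89404992), (2742, 89404992), (2794, 62930496), (2798, 62930496), (2834, 62930496),
  (2846, 62930496), (2858, 62930496), (2866, 62930496), (2914, 62930496), (2922, 62930496),
  (2934, 62930496), (2946, 62930496), (2982, 62930496), (2986, 62930496), (3038, 4296292672),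
  (3042, 4296292672), (3058, 4296292672), (3066, 4296292672), (3082, 4296292672), (3086, 4296292672),
  (3474, 353646912), (3494, 353646912), (3498, 353646912), (3574, 178272832), (3614, 178272832),
  (3622, 178272832), (3694, 178272832), (3698, 178272832), (3714, 178272832), (3722, 178272832),
  (3738, 178272832), (3742, 178272832), (4474, 353646912), (4494, 353646912), (4498, 353646912),
  (4774, 681589264), (4854, 681589252), (4870, 6050642516), (4894, 681589264), (4898, 681589264),
  (4954, 681589252), (4970, 6050642516), (4978, 681589252), (4990, 6050642516), (5074, 89404992),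
  (5114, 89404992), (5122, 89404992), (5274, 264257040), (5354, 264257028), (5370, 5901745748),
  (5514, 264257040), (5522, 264257040), (5554, 264257028), (5570, 5901745748), (5602, 5370100048),
  (5610, 5370100048), (5694, 89404992), (5698, 89404992), (5714, 89404992), (5722, 89404992),
  (5738, 89404992), (5742, 89404992), (5894, 264257040), (5898, 264257040), (5954, 264257028),
  (5970, 5901745748), (5978, 264257028), (5990, 5901745748), (6014, 264257040), (6022, 264257040),
  (6054, 264257028), (6070, 5901745748), (6102, 5370100048), (6110, 5370100048), (6138, 4296292672),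
  (6142, 4296292672), (6178, 4296292672), (6190, 4296292672), (6202, 4296292672), (6210, 4296292672),
  (6474, 85211456), (6494, 85211456), (6498, 85211456), (6674, 44052032), (6734, 44052032),
  (6746, 44052032), (6794, 44052032), (6798, 44052032), (6834, 44052032), (6846, 44052032),
  (6858, 44052032), (6866, 44052032), (6974, 85211456), (6994, 85211456), (6998, 85211456),
  (7274, 681589264), (7354, 681589252), (7370, 6050642516), (7394, 681589264), (7398, 681589264),
  (7454, 681589252), (7470, 6050642516), (7478, 681589252), (7490, 6050642516), (8174, 22289984),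
  (8234, 22289984), (8246, 22289984), (8274, 1427454288), (8354, 1069563012), (8370, 6439665044),
  (8634, 11369282196), (8646, 11285314180), (8654, 11369282196), (8670, 11285314180), (8726, 5370100048),
  (8730, 5370100048), (8794, 22289984), (8798, 22289984), (8834, 22289984), (8846, 22289984),
  (8858, 22289984), (8866, 22289984), (8894, 357906000), (8898, 357906000), (8954, 1069563012),
  (8970, 6439665044), (8978, 1069563012), (8990, 6439665044), (9134, 11369282196), (9146, 11285314180),
  (9154, 11369282196), (9170, 11285314180), (9226, 5370100048), (9230, 5370100048), (9258, 4296292672),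
  (9266, 4296292672), (9278, 4296292672), (9290, 4296292672), (9326, 4296292672), (9330, 4296292672),
  (9574, 85211456), (9614, 85211456), (9622, 85211456), (9674, 44052032), (9734, 44052032),
  (9746, 44052032), (9914, 44052032), (9922, 44052032), (9934, 44052032), (9946, 44052032),
  (9982, 44052032), (9986, 44052032), (10074, 85211456), (10114, 85211456), (10122, 85211456),
  (10274, 178269712), (10354, 178269700), (10370, 5815758420), (10514, 178269712), (10522, 178269712),
  (10554, 178269700), (10570, 5815758420), (10602, 5374293584), (10610, 5374293584), (10674, 22289984),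
  (10734, 22289984), (10746, 22289984), (10774, 353712464), (10854, 2829597316), (10870, 7124646548),
  (11134, 11369282196), (11146, 11285314180), (11154, 11369282196), (11170, 11285314180), (11226, 5638535504),
  (11230, 5638535504), (11914, 22289984), (11922, 22289984), (11934, 22289984), (11946, 22289984),
  (11982, 22289984), (11986, 22289984), (12014, 89464400), (12022, 89464400), (12054, 11100584532),
  (12070, 10747918852), (12102, 10747918864), (12110, 10747918864), (12134, 11100584532), (12146, 10747918852),
  (12154, 11100584532), (12170, 10747918852), (12226, 10747918864), (12230, 10747918864), (12382, 4296292672),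
  (12386, 4296292672), (12402, 4296292672), (12410, 4296292672), (12426, 4296292672), (12430, 4296292672),
  (12694, 85211456), (12698, 85211456), (12714, 85211456), (12722, 85211456), (12738, 85211456),
  (12742, 85211456), (12794, 44052032), (12798, 44052032), (12834, 44052032), (12846, 44052032),
  (12858, 44052032), (12866, 44052032), (12914, 44052032), (12922, 44052032), (12934, 44052032),
  (12946, 44052032), (12982, 44052032), (12986, 44052032), (13038, 4300486208), (13042, 4300486208),
  (13058, 4300486208), (13066, 4300486208), (13082, 4300486208), (13086, 4300486208), (13194, 85211456),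
  (13198, 85211456), (13214, 85211456), (13222, 85211456), (13238, 85211456), (13242, 85211456),
  (13394, 178269712), (13398, 178269712), (13454, 178269700), (13470, 5815758420), (13478, 178269700),
  (13490, 5815758420), (13514, 178269712), (13522, 178269712), (13554, 178269700), (13570, 5815758420),
  (13602, 5374293584), (13610, 5374293584), (13638, 4300486208), (13642, 4300486208), (13678, 4300486208),
  (13690, 4300486208), (13702, 4300486208), (13710, 4300486208), (13794, 22289984), (13798, 22289984),
  (13834, 22289984), (13846, 22289984), (13858, 22289984), (13866, 22289984), (13894, 353712464),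
  (13898, 353712464), (13954, 715665028), (13970, 6084456084), (13978, 715665028), (13990, 6084456084),
  (14134, 11369282196), (14146, 11285314180), (14154, 11369282196), (14170, 11285314180), (14226, 5638535504),
  (14230, 5638535504), (14258, 4300486208), (14266, 4300486208), (14278, 4300486208), (14290, 4300486208),
  (14326, 4300486208), (14330, 4300486208), (14414, 22289984), (14422, 22289984), (14434, 22289984),
  (14446, 22289984), (14482, 22289984), (14486, 22289984), (14514, 89464400), (14522, 89464400),
  (14554, 11100584532), (14570, 10747918852), (14602, 10747918864), (14610, 10747918864), (14634, 11100584532),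
  (14646, 10747918852), (14654, 11100584532), (14670, 10747918852), (14726, 10747918864), (14730, 10747918864),
  (14882, 5370034496), (14886, 5370034496), (14902, 5370034496), (14910, 5370034496), (14926, 5370034496),
  (14930, 5370034496), (15038, 8600435264), (15042, 8600435264), (15058, 8600435264), (15066, 8600435264),
  (15082, 8600435264), (15086, 8600435264), (15138, 8600435264), (15142, 8600435264), (15178, 8600435264),
  (15190, 8600435264), (15202, 8600435264), (15210, 8600435264), (15258, 8600435264), (15266, 8600435264),
  (15278, 8600435264), (15290, 8600435264), (15326, 8600435264), (15330, 8600435264), (15382, 5370034496),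
  (15386, 5370034496), (15402, 5370034496), (15410, 5370034496), (15426, 5370034496), (15430, 5370034496),
  (15974, 353646912), (15994, 353646912), (15998, 353646912), (16074, 44055104), (16114, 44055104),
  (16122, 44055104), (16194, 44055104), (16198, 44055104), (16214, 44055104), (16222, 44055104),
  (16238, 44055104), (16242, 44055104), (16974, 353646912), (16994, 353646912), (16998, 353646912),
  (17274, 715143696), (17354, 715143684), (17370, 6084196948), (17394, 715143696), (17398, 715143696),
  (17454, 715143684), (17470, 6084196948), (17478, 715143684), (17490, 6084196948), (17574, 22296128),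
  (17614, 22296128), (17622, 22296128), (17774, 264257040), (17854, 264257028), (17870, 5901745748),
  (18014, 264257040), (18022, 264257040), (18054, 264257028), (18070, 5901745748), (18102, 5370100048),
  (18110, 5370100048), (18194, 22296128), (18198, 22296128), (18214, 22296128), (18222, 22296128),
  (18238, 22296128), (18242, 22296128), (18394, 264257040), (18398, 264257040), (18454, 264257028),
  (18470, 5901745748), (18478, 264257028), (18490, 5901745748), (18514, 264257040), (18522, 264257040),
  (18554, 264257028), (18570, 5901745748), (18602, 5370100048), (18610, 5370100048), (18638, 4296292672),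
  (18642, 4296292672), (18678, 4296292672), (18690, 4296292672), (18702, 4296292672), (18710, 4296292672),
  (21974, 18102592), (21994, 18102592), (21998, 18102592), (22274, 715143696), (22354, 715143684),
  (22370, 6084196948), (22394, 715143696), (22398, 715143696), (22454, 715143684), (22470, 6084196948),
  (22478, 715143684), (22490, 6084196948), (23774, 1427454288), (23854, 1019231364), (23870, 6389333396),
  (24254, 11302173332), (24270, 11285314180), (24350, 5370100048), (24394, 357906000), (24398, 357906000),
  (24454, 1019231364), (24470, 6389333396), (24478, 1019231364), (24490, 6389333396), (24754, 11302173332),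
  (24770, 11285314180), (24850, 5370100048), (24878, 4296292672), (24890, 4296292672), (24950, 4296292672),
  (25074, 18102592), (25114, 18102592), (25122, 18102592), (25274, 178269712), (25354, 178269700),
  (25370, 5815758420), (25514, 178269712), (25522, 178269712), (25554, 178269700), (25570, 5815758420),
  (25602, 5374293584), (25610, 5374293584), (26274, 353712464), (26354, 2863151748), (26370, 7158200980),
  (26754, 11302173332), (26770, 11285314180), (26850, 5638535504), (27514, 89464400), (27522, 89464400),
  (27554, 11100584532), (27570, 10747918852), (27602, 10747918864), (27610, 10747918864), (27754, 11100584532),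
  (27770, 10747918852), (27850, 10747918864), (28002, 4296292672), (28010, 4296292672), (28050, 4296292672),
  (28194, 18102592), (28198, 18102592), (28214, 18102592), (28222, 18102592), (28238, 18102592),
  (28242, 18102592), (28394, 178269712), (28398, 178269712), (28454, 178269700), (28470, 5815758420),
  (28478, 178269700), (28490, 5815758420), (28514, 178269712), (28522, 178269712), (28554, 178269700),
  (28570, 5815758420), (28602, 5374293584), (28610, 5374293584), (28638, 4300486208), (28642, 4300486208),
  (28678, 4300486208), (28690, 4300486208), (28702, 4300486208), (28710, 4300486208), (29394, 353712464),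
  (29398, 353712464), (29454, 715665028), (29470, 6084456084), (29478, 715665028), (29490, 6084456084),
  (29754, 11302173332), (29770, 11285314180), (29850, 5638535504), (29878, 4300486208), (29890, 4300486208),
  (29950, 4300486208), (30014, 89464400), (30022, 89464400), (30054, 11100584532), (30070, 10747918852),
  (30102, 10747918864), (30110, 10747918864), (30254, 11100584532), (30270, 10747918852), (30350, 10747918864),
  (30502, 5370034496), (30510, 5370034496), (30550, 5370034496), (30638, 8600435264), (30642, 8600435264),
  (30678, 8600435264), (30690, 8600435264), (30702, 8600435264), (30710, 8600435264), (30878, 8600435264),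
  (30890, 8600435264), (30950, 8600435264), (31002, 5370034496), (31010, 5370034496), (31050, 5370034496),
  (31474, 85211456), (31494, 85211456), (31498, 85211456), (31674, 44055104), (31734, 44055104),
  (31746, 44055104), (31794, 44055104), (31798, 44055104), (31834, 44055104), (31846, 44055104),
  (31858, 44055104), (31866, 44055104), (31974, 85211456), (31994, 85211456), (31998, 85211456),
  (32274, 178272784), (32354, 178272772), (32370, 5547326036), (32394, 178272784), (32398, 178272784),
  (32454, 178272772), (32470, 5547326036), (32478, 178272772), (32490, 5547326036), (33174, 22296128),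
  (33234, 22296128), (33246, 22296128), (33274, 1427454288), (33354, 1069563012), (33370, 6439665044),
  (33634, 11369279124), (33646, 11285311108), (33654, 11369279124), (33670, 11285311108), (33726, 5370100048),
  (33730, 5370100048), (33794, 22296128), (33798, 22296128), (33834, 22296128), (33846, 22296128),
  (33858, 22296128), (33866, 22296128), (33894, 89470544), (33898, 89470544), (33954, 1069563012),
  (33970, 6439665044), (33978, 1069563012), (33990, 6439665044), (34134, 11369279124), (34146, 11285311108),
  (34154, 11369279124), (34170, 11285311108), (34226, 5370100048), (34230, 5370100048), (34258, 4296292672),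
  (34266, 4296292672), (34278, 4296292672), (34290, 4296292672), (34326, 4296292672), (34330, 4296292672),
  (34474, 18102592), (34494, 18102592), (34498, 18102592), (34774, 178272784), (34854, 178272772),
  (34870, 5547326036), (34894, 178272784), (34898, 178272784), (34954, 178272772), (34970, 5547326036),
  (34978, 178272772), (34990, 5547326036), (36274, 1427454288), (36354, 1019231364), (36370, 6389333396),
  (36754, 11436391060), (36770, 11419531908), (36850, 5370100048), (36894, 89470544), (36898, 89470544),
  (36954, 1019231364), (36970, 6389333396), (36978, 1019231364), (36990, 6389333396), (37254, 11436391060),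
  (37270, 11419531908), (37350, 5370100048), (37378, 4296292672), (37390, 4296292672), (37450, 4296292672),
  (40674, 18102592), (40734, 18102592), (40746, 18102592), (40774, 85277008), (40854, 2863151748),
  (40870, 7158200980), (41134, 4124409236), (41146, 4039130244), (41154, 4124409236), (41170, 4039130244),
  (41226, 5374293584), (41230, 5374293584), (41274, 85277008), (41354, 2863151748), (41370, 7158200980),
  (41754, 4124409236), (41770, 4039130244), (41850, 5705644368), (43134, 10832149076), (43146, 10747918852),
  (43154, 10832149076), (43170, 10747918852), (43226, 10747918864), (43230, 10747918864), (43254, 10832149076),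
  (43270, 10747918852), (43350, 10747918864), (43626, 4296292672), (43630, 4296292672), (43650, 4296292672),
  (43794, 18102592), (43798, 18102592), (43834, 18102592), (43846, 18102592), (43858, 18102592),
  (43866, 18102592), (43894, 85277008), (43898, 85277008), (43954, 715665028), (43970, 6084456084),
  (43978, 715665028), (43990, 6084456084), (44134, 17009311124), (44146, 16924032132), (44154, 17009311124),
  (44170, 16924032132), (44226, 5374293584), (44230, 5374293584), (44258, 4300486208), (44266, 4300486208),
  (44278, 4300486208), (44290, 4300486208), (44326, 4300486208), (44330, 4300486208), (44394, 85277008),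
  (44398, 85277008), (44454, 715665028), (44470, 6084456084), (44478, 715665028), (44490, 6084456084),
  (44754, 17009311124), (44770, 16924032132), (44850, 5705644368), (44878, 4300486208), (44890, 4300486208),
  (44950, 4300486208), (45634, 10832149076), (45646, 10747918852), (45654, 10832149076), (45670, 10747918852),
  (45726, 10747918864), (45730, 10747918864), (45754, 10832149076), (45770, 10747918852), (45850, 10747918864),
  (46126, 5370034496), (46130, 5370034496), (46150, 5370034496), (46258, 8600435264), (46266, 8600435264),
  (46278, 8600435264), (46290, 8600435264), (46326, 8600435264), (46330, 8600435264), (46378, 8600435264),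
  (46390, 8600435264), (46450, 8600435264), (46626, 5370034496), (46630, 5370034496), (46650, 5370034496),
  (47074, 85211456), (47114, 85211456), (47122, 85211456), (47174, 44055104), (47234, 44055104),
  (47246, 44055104), (47414, 44055104), (47422, 44055104), (47434, 44055104), (47446, 44055104),
  (47482, 44055104), (47486, 44055104), (47574, 85211456), (47614, 85211456), (47622, 85211456),
  (47774, 178272784), (47854, 178272772), (47870, 5815761492), (48014, 178272784), (48022, 178272784),
  (48054, 178272772), (48070, 5815761492), (48102, 5374287440), (48110, 5374287440), (48174, 22296128),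
  (48234, 22296128), (48246, 22296128), (48274, 353712464), (48354, 715668100), (48370, 5010717332),
  (48634, 11369279124), (48646, 11285311108), (48654, 11369279124), (48670, 11285311108), (48726, 5638535504),
  (48730, 5638535504), (49414, 22296128), (49422, 22296128), (49434, 22296128), (49446, 22296128),
  (49482, 22296128), (49486, 22296128), (49514, 89470544), (49522, 89470544), (49554, 11100581460),
  (49570, 10747915780), (49602, 10747915792), (49610, 10747915792), (49634, 11100581460), (49646, 10747915780),
  (49654, 11100581460), (49670, 10747915780), (49726, 10747915792), (49730, 10747915792), (49882, 4296292672),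
  (49886, 4296292672), (49902, 4296292672), (49910, 4296292672), (49926, 4296292672), (49930, 4296292672),
  (50074, 18102592), (50114, 18102592), (50122, 18102592), (50274, 178272784), (50354, 178272772),
  (50370, 5815761492), (50514, 178272784), (50522, 178272784), (50554, 178272772), (50570, 5815761492),
  (50602, 5374287440), (50610, 5374287440), (51274, 353712464), (51354, 715668100), (51370, 5010717332),
  (51754, 11436391060), (51770, 11419531908), (51850, 5638535504), (52514, 89470544), (52522, 89470544),
  (52554, 11100581460), (52570, 10747915780), (52602, 10747915792), (52610, 10747915792), (52754, 11100581460),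
  (52770, 10747915780), (52850, 10747915792), (53002, 4296292672), (53010, 4296292672), (53050, 4296292672),
  (53174, 18102592), (53234, 18102592), (53246, 18102592), (53274, 85277008), (53354, 715668100),
  (53370, 5010717332), (53634, 4124409236), (53646, 4039130244), (53654, 4124409236), (53670, 4039130244),
  (53726, 5642729040), (53730, 5642729040), (53774, 85277008), (53854, 715668100), (53870, 5010717332),
  (54254, 4124409236), (54270, 4039130244), (54350, 5705644368), (55634, 11369019988), (55646, 11284789764),
  (55654, 11369019988), (55670, 11284789764), (55726, 11284789776), (55730, 11284789776), (55754, 11369019988),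
  (55770, 11284789764), (55850, 11284789776), (56126, 4296292672), (56130, 4296292672), (56150, 4296292672),
  (59414, 18102592), (59422, 18102592), (59434, 18102592), (59446, 18102592), (59482, 18102592),
  (59486, 18102592), (59514, 85277008), (59522, 85277008), (59554, 16471391828), (59570, 16118726148),
  (59602, 16118726160), (59610, 16118726160), (59634, 16471391828), (59646, 16118726148), (59654, 16471391828),
  (59670, 16118726148), (59726, 16118726160), (59730, 16118726160), (59882, 4300486208), (59886, 4300486208),
  (59902, 4300486208), (59910, 4300486208), (59926, 4300486208), (59930, 4300486208), (60014, 85277008),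
  (60022, 85277008), (60054, 16471391828), (60070, 16118726148), (60102, 16118726160), (60110, 16118726160),
  (60254, 16471391828), (60270, 16118726148), (60350, 16118726160), (60502, 4300486208), (60510, 4300486208),
  (60550, 4300486208), (60634, 11369019988), (60646, 11284789764), (60654, 11369019988), (60670, 11284789764),
  (60726, 11284789776), (60730, 11284789776), (60754, 11369019988), (60770, 11284789764), (60850, 11284789776),
  (61126, 5638469952), (61130, 5638469952), (61150, 5638469952), (61882, 8600435264), (61886, 8600435264),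
  (61902, 8600435264), (61910, 8600435264), (61926, 8600435264), (61930, 8600435264), (62002, 8600435264),
  (62010, 8600435264), (62050, 8600435264), (62126, 5638469952), (62130, 5638469952), (62150, 5638469952),
  (62694, 85211456), (62698, 85211456), (62714, 85211456), (62722, 85211456), (62738, 85211456),
  (62742, 85211456), (62794, 44055104), (62798, 44055104), (62834, 44055104), (62846, 44055104),
  (62858, 44055104), (62866, 44055104), (62914, 44055104), (62922, 44055104), (62934, 44055104),
  (62946, 44055104), (62982, 44055104), (62986, 44055104), (63038, 44055104), (63042, 44055104),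
  (63058, 44055104), (63066, 44055104), (63082, 44055104), (63086, 44055104), (63194, 85211456),
  (63198, 85211456), (63214, 85211456), (63222, 85211456), (63238, 85211456), (63242, 85211456),
  (63394, 178272784), (63398, 178272784), (63454, 178272772), (63470, 5815761492), (63478, 178272772),
  (63490, 5815761492), (63514, 178272784), (63522, 178272784), (63554, 178272772), (63570, 5815761492),
  (63602, 5374287440), (63610, 5374287440), (63638, 4300480064), (63642, 4300480064), (63678, 4300480064),
  (63690, 4300480064), (63702, 4300480064), (63710, 4300480064), (63794, 22296128), (63798, 22296128),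
  (63834, 22296128), (63846, 22296128), (63858, 22296128), (63866, 22296128), (63894, 353712464),
  (63898, 353712464), (63954, 715668100), (63970, 6084459156), (63978, 715668100), (63990, 6084459156),
  (64134, 11369279124), (64146, 11285311108), (64154, 11369279124), (64170, 11285311108), (64226, 5638535504),
  (64230, 5638535504), (64258, 4300480064), (64266, 4300480064), (64278, 4300480064), (64290, 4300480064),
  (64326, 4300480064), (64330, 4300480064), (64414, 22296128), (64422, 22296128), (64434, 22296128),
  (64446, 22296128), (64482, 22296128), (64486, 22296128), (64514, 89470544), (64522, 89470544),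
  (64554, 11100581460), (64570, 10747915780), (64602, 10747915792), (64610, 10747915792), (64634, 11100581460),
  (64646, 10747915780), (64654, 11100581460), (64670, 10747915780), (64726, 10747915792), (64730, 10747915792),
  (64882, 5370034496), (64886, 5370034496), (64902, 5370034496), (64910, 5370034496), (64926, 5370034496),
  (64930, 5370034496), (65038, 22296128), (65042, 22296128), (65058, 22296128), (65066, 22296128),
  (65082, 22296128), (65086, 22296128), (65138, 8600432192), (65142, 8600432192), (65178, 8600432192),
  (65190, 8600432192), (65202, 8600432192), (65210, 8600432192), (65258, 8600432192), (65266, 8600432192),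
  (65278, 8600432192), (65290, 8600432192), (65326, 8600432192), (65330, 8600432192), (65382, 5370034496),
  (65386, 5370034496), (65402, 5370034496), (65410, 5370034496), (65426, 5370034496), (65430, 5370034496),
  (65694, 18102592), (65698, 18102592), (65714, 18102592), (65722, 18102592), (65738, 18102592),
  (65742, 18102592), (65894, 178272784), (65898, 178272784), (65954, 178272772), (65970, 5815761492),
  (65978, 178272772), (65990, 5815761492), (66014, 178272784), (66022, 178272784), (66054, 178272772),
  (66070, 5815761492), (66102, 5374287440), (66110, 5374287440), (66138, 4300480064), (66142, 4300480064),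
  (66178, 4300480064), (66190, 4300480064), (66202, 4300480064), (66210, 4300480064), (66894, 353712464),
  (66898, 353712464), (66954, 715668100), (66970, 6084459156), (66978, 715668100), (66990, 6084459156),
  (67254, 2846456468), (67270, 2829597316), (67350, 5638535504), (67378, 4300480064), (67390, 4300480064),
  (67450, 4300480064), (67514, 89470544), (67522, 89470544), (67554, 11100581460), (67570, 10747915780),
  (67602, 10747915792), (67610, 10747915792), (67754, 11100581460), (67770, 10747915780), (67850, 10747915792),
  (68002, 5370034496), (68010, 5370034496), (68050, 5370034496), (68138, 8600432192), (68142, 8600432192),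
  (68178, 8600432192), (68190, 8600432192), (68202, 8600432192), (68210, 8600432192), (68378, 8600432192),
  (68390, 8600432192), (68450, 8600432192), (68502, 5370034496), (68510, 5370034496), (68550, 5370034496),
  (68794, 18102592), (68798, 18102592), (68834, 18102592), (68846, 18102592), (68858, 18102592),
  (68866, 18102592), (68894, 85277008), (68898, 85277008), (68954, 715668100), (68970, 6084459156),
  (68978, 715668100), (68990, 6084459156), (69134, 17009311124), (69146, 16924032132), (69154, 17009311124),
  (69170, 16924032132), (69226, 5642729040), (69230, 5642729040), (69258, 4300480064), (69266, 4300480064),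
  (69278, 4300480064), (69290, 4300480064), (69326, 4300480064), (69330, 4300480064), (69394, 85277008),
  (69398, 85277008), (69454, 715668100), (69470, 6084459156), (69478, 715668100), (69490, 6084459156),
  (69754, 17009311124), (69770, 16924032132), (69850, 5705644368), (69878, 4300480064), (69890, 4300480064),
  (69950, 4300480064), (70634, 2779085396), (70646, 2694855172), (70654, 2779085396), (70670, 2694855172),
  (70726, 2694855184), (70730, 2694855184), (70754, 2779085396), (70770, 2694855172), (70850, 2694855184),
  (71126, 5370034496), (71130, 5370034496), (71150, 5370034496), (71258, 8600432192), (71266, 8600432192),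
  (71278, 8600432192), (71290, 8600432192), (71326, 8600432192), (71330, 8600432192), (71378, 8600432192),
  (71390, 8600432192), (71450, 8600432192), (71626, 5370034496), (71630, 5370034496), (71650, 5370034496),
  (71914, 18102592), (71922, 18102592), (71934, 18102592), (71946, 18102592), (71982, 18102592),
  (71986, 18102592), (72014, 85277008), (72022, 85277008), (72054, 16471391828), (72070, 16118726148),
  (72102, 16118726160), (72110, 16118726160), (72134, 16471391828), (72146, 16118726148), (72154, 16471391828),
  (72170, 16118726148), (72226, 16118726160), (72230, 16118726160), (72382, 5374228032), (72386, 5374228032),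
  (72402, 5374228032), (72410, 5374228032), (72426, 5374228032), (72430, 5374228032), (72514, 85277008),
  (72522, 85277008), (72554, 16471391828), (72570, 16118726148), (72602, 16118726160), (72610, 16118726160),
  (72754, 16471391828), (72770, 16118726148), (72850, 16118726160), (73002, 5374228032), (73010, 5374228032),
  (73050, 5374228032), (73134, 2779085396), (73146, 2694855172), (73154, 2779085396), (73170, 2694855172),
  (73226, 2694855184), (73230, 2694855184), (73254, 2779085396), (73270, 2694855172), (73350, 2694855184),
  (73626, 5638469952), (73630, 5638469952), (73650, 5638469952), (74382, 10747918912), (74386, 10747918912),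
  (74402, 10747918912), (74410, 10747918912), (74426, 10747918912), (74430, 10747918912), (74502, 10747918912),
  (74510, 10747918912), (74550, 10747918912), (74626, 5638469952), (74630, 5638469952), (74650, 5638469952),
  (75038, 18102592), (75042, 18102592), (75058, 18102592), (75066, 18102592), (75082, 18102592),
  (75086, 18102592), (75138, 12897500736), (75142, 12897500736), (75178, 12897500736), (75190, 12897500736),
  (75202, 12897500736), (75210, 12897500736), (75258, 12897500736), (75266, 12897500736), (75278, 12897500736),
  (75290, 12897500736), (75326, 12897500736), (75330, 12897500736), (75382, 5374228032), (75386, 5374228032),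
  (75402, 5374228032), (75410, 5374228032), (75426, 5374228032), (75430, 5374228032), (75638, 12897500736),
  (75642, 12897500736), (75678, 12897500736), (75690, 12897500736), (75702, 12897500736), (75710, 12897500736),
  (75878, 12897500736), (75890, 12897500736), (75950, 12897500736), (76002, 5374228032), (76010, 5374228032),
  (76050, 5374228032), (76258, 12897500736), (76266, 12897500736), (76278, 12897500736), (76290, 12897500736),
  (76326, 12897500736), (76330, 12897500736), (76378, 12897500736), (76390, 12897500736), (76450, 12897500736),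
  (76626, 1343502656), (76630, 1343502656), (76650, 1343502656), (76882, 10747918912), (76886, 10747918912),
  (76902, 10747918912), (76910, 10747918912), (76926, 10747918912), (76930, 10747918912), (77002, 10747918912),
  (77010, 10747918912), (77050, 10747918912), (77126, 1343502656), (77130, 1343502656), (77150, 1343502656)]

def d4 {m : ℕ} (n k : ℕ) (i : Fin m) : Fin 4 := ⟨dig 4 n (k + i.1), Nat.mod_lt _ (by norm_num)⟩

def NT (x : Fin 7 → Fin 4) : Prop :=
  (∀ a, ∃ i, x i = a) ∧ ∃ i j, i ≠ j ∧ x i = x j ∧ ∃ i' j', i' ≠ j' ∧ x i' = x j' ∧ x i ≠ x i'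

def gB (f n k : ℕ) : Bool := L7.all fun i => L7.all fun j => !Nat.beq (dig 4 n i) (dig 4 n j) ||
  Nat.beq i j || L5.all fun t => Nat.blt t (dig 5 f i) || Nat.blt (dig 5 f j) t ||
    Nat.beq (dig 4 n (k + t)) (dig 4 n i)

def nB (x : ℕ → ℕ) : Bool := (L4.all fun a => L7.any fun i => Nat.beq (x i) a) &&
  L7.any fun i => L7.any fun j => !Nat.beq i j && Nat.beq (x i) (x j) && L7.any fun i' =>
    !Nat.beq (x i) (x i') && L7.any fun j' => !Nat.beq i' j' && Nat.beq (x i') (x j')

lemma tab1 : (tab.all fun e => nB (dig 4 e.2)) = true := by decide +kernel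
lemma tab2 : (tab.all fun e => gB 77150 e.2 7) = true := by decide +kernel
lemma tab3 : (tab.all fun e => gB e.1 e.2 12) = true := by decide +kernel

lemma tab_cov : (L5.flatMap fun g => L5.flatMap fun f => L5.flatMap fun e => L5.flatMap fun d =>
    L5.flatMap fun c => L5.flatMap fun b => (L5.filter fun a =>
      Nat.beq (8 ^ a + (8 ^ b + (8 ^ c + (8 ^ d + (8 ^ e + (8 ^ f + 8 ^ g)))))) 8778).map fun a =>
        a + 5 * b + 25 * c + 125 * d + 625 * e + 3125 * f + 15625 * g) = tab.map Prod.fst := by
  decide +kernel

lemma gB_ok {f : Fin 7 → Fin 5} {m n k : ℕ} (hf : ∀ i : Fin 7, dig 5 m i = f i)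
    (h : gB m n k = true) : Good f (d4 n 0) (d4 n k) := by
  intro i j hij hx t h1 h2
  simp only [gB, Bool.or_eq_true, List.all_eq_true, Bool.not_eq_true', Nat.beq_eq, Nat.blt_eq,
    m5, m7, ← Bool.not_eq_true] at h
  simp only [d4, Fin.mk.injEq, zero_add] at hx ⊢
  rcases h i i.2 j j.2 with (h | h) | h
  · exact absurd hx h
  · exact absurd (Fin.ext h) hij
  · have := h t t.2
    rw [hf, hf] at this
    have h1' : (f i).1 ≤ t.1 := h1
    have h2' : t.1 ≤ (f j).1 := h2
    omega

lemma perm_of {f : Fin 7 → Fin 5} (hf : Cond f) : ∃ σ : Fin 7 ≃ Fin 7, ∀ i, f0 (σ i) = f i := by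
  have h1 : ∀ t, (univ.filter fun i => f i = t).card = (univ.filter fun i => f0 i = t).card := by
    have a := card_eq_sum_card_fiberwise (s := univ) (t := univ) (f := f) fun _ _ => mem_univ _
    have b := card_eq_sum_card_fiberwise (s := univ) (t := univ) (f := f0) fun _ _ => mem_univ _
    exact fun t => (sum_eq_sum_iff_of_le fun t _ => hf t).1 (a.symm.trans b) t (mem_univ _)
  exact ⟨Equiv.ofFiberEquiv (f := f) (g := f0) fun t =>
    Fintype.equivOfCardEq (by rw [Fintype.card_subtype, Fintype.card_subtype, h1]),
    Equiv.ofFiberEquiv_map _⟩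

lemma base (f : Fin 7 → Fin 5) (σ : Fin 7 ≃ Fin 7) (hσ : ∀ i, f0 (σ i) = f i) :
    ∃ x h h', NT x ∧ Good f0 x h ∧ Good f x h' := by
  have h0 : ∑ i, 8 ^ (f i).1 = 8778 := by
    simp only [← hσ]
    rw [Equiv.sum_comp σ fun i => 8 ^ (f0 i).1]
    decide
  rw [Fin.sum_univ_seven] at h0
  have : (f 0).1 + 5 * (f 1).1 + 25 * (f 2).1 + 125 * (f 3).1 + 625 * (f 4).1 + 3125 * (f 5).1 +
      15625 * (f 6).1 ∈ tab.map Prod.fst := by
    rw [← tab_cov]
    simp only [List.mem_flatMap, List.mem_map, List.mem_filter, m5, Nat.beq_eq]
    exact ⟨_, (f 6).2, _, (f 5).2, _, (f 4).2, _, (f 3).2, _, (f 2).2, _, (f 1).2, _,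
      ⟨(f 0).2, by omega⟩, rfl⟩
  obtain ⟨e, he, h1⟩ := List.mem_map.1 this
  refine ⟨_, _, _, ?_, gB_ok (by decide) (List.all_eq_true.1 tab2 e he),
    gB_ok (fun i => ?_) (List.all_eq_true.1 tab3 e he)⟩
  · have h := List.all_eq_true.1 tab1 e he
    simp only [nB, List.any_eq_true, List.all_eq_true, Bool.and_eq_true, Bool.not_eq_true',
      Nat.beq_eq, m4, m7, ← Bool.not_eq_true] at h
    obtain ⟨h2, i, hi, j, hj, ⟨p, q⟩, i', hi', t, j', hj', u, w⟩ := h
    refine ⟨fun a => ?_, ⟨i, hi⟩, ⟨j, hj⟩, by simpa, by simpa [d4], ⟨i', hi'⟩, ⟨j', hj'⟩, by simpa,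
      by simpa [d4], by simpa [d4]⟩
    obtain ⟨i, hi, h⟩ := h2 a a.2
    exact ⟨⟨i, hi⟩, Fin.ext (by simpa [d4])⟩
  · have := (f 0).2; have := (f 1).2; have := (f 2).2; have := (f 3).2; have := (f 4).2
    have := (f 5).2; have := (f 6).2
    rw [h1]
    fin_cases i <;> simp [dig] <;> omega

lemma pair (f f' : Fin 7 → Fin 5) (hf : Cond f) (hf' : Cond f') :
    ∃ x h h', NT x ∧ Good f x h ∧ Good f' x h' := by
  obtain ⟨σ, hσ⟩ := perm_of hf
  obtain ⟨τ, hτ⟩ := perm_of hf'
  obtain ⟨x, h, h', ⟨n1, i, j, n2, n3, i', j', n4, n5, n6⟩, g1, g2⟩ :=
    base (f' ∘ σ.symm) (σ.symm.trans τ) fun i => hτ _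
  refine ⟨x ∘ σ, h, h', ⟨fun a => ?_, σ.symm i, σ.symm j, by simpa, by simpa, σ.symm i',
    σ.symm j', by simpa, by simpa, by simpa⟩, fun a b hab hx t h1 h2 => ?_,
    fun a b hab hx t h1 h2 => ?_⟩
  · obtain ⟨i, hi⟩ := n1 a
    exact ⟨σ.symm i, by simpa⟩
  · exact g1 _ _ (σ.injective.ne hab) hx t (hσ a ▸ h1) (hσ b ▸ h2)
  · exact g2 _ _ (σ.injective.ne hab) hx t (by simpa) (by simpa)

def cK (K : Finset (Fin 7)) (i : Fin 7) : Fin 4 :=
  if i ∈ K then 0 else Fin.ofNat 4 (1 + (univ.filter fun j => j < i ∧ j ∉ K).card)

lemma cK_ok : ∀ K ∈ powersetCard 4 (univ : Finset (Fin 7)), (∀ a, ∃ i, cK K i = a) ∧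
    (∀ i j, i ≠ j → cK K i = cK K j → cK K i = 0) ∧
    ∀ i, i ∈ K ↔ ∃ j, i ≠ j ∧ cK K i = cK K j := by decide +kernel

lemma card_ker (x : Fin 7 → Fin 4) (h : ∀ a, ∃ i, x i = a) :
    Nat.card (Quotient (Setoid.ker x)) = 4 := by
  rw [Nat.card_congr (Setoid.quotientKerEquivOfSurjective x h)]
  simp

lemma lower (T F : Phylo 7) (hT : IsCat T) (hF : IsCat F) : 36 ≤ common 4 T F := by
  classical
  obtain ⟨f, c1, p1⟩ := cat_struct T hT
  obtain ⟨f', c2, p2⟩ := cat_struct F hF
  obtain ⟨x, h, h', ⟨n1, i, j, n2, n3, i', j', n4, n5, n6⟩, g1, g2⟩ := pair f f' c1 c2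
  set A := (powersetCard 4 (univ : Finset (Fin 7))).image fun K => Setoid.ker (cK K) with hA
  have h1 : A.card = 35 := by
    rw [card_image_of_injOn, card_powersetCard]
    · decide
    intro K hK L hL e
    ext a
    rw [(cK_ok K hK).2.2, (cK_ok L hL).2.2]
    exact exists_congr fun b => and_congr_right fun _ => Setoid.ext_iff.1 e a b
  have h2 : Setoid.ker x ∉ A := fun hh => by
    obtain ⟨K, hK, e⟩ := mem_image.1 hh
    have e' : ∀ a b, cK K a = cK K b ↔ x a = x b := Setoid.ext_iff.1 e
    exact n6 ((e' ..).1 (((cK_ok K hK).2.1 i j n2 ((e' ..).2 n3)).trans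
      ((cK_ok K hK).2.1 i' j' n4 ((e' ..).2 n5)).symm))
  have h3 : ((insert (Setoid.ker x) A : Finset _) : Set _) ⊆
      Parts T ∩ Parts F ∩ {r | Nat.card (Quotient r) = 4} := fun r hr => by
    rcases mem_insert.1 (mem_coe.1 hr) with rfl | hr
    · exact ⟨⟨p1 x h g1, p2 x h' g2⟩, card_ker x n1⟩
    · obtain ⟨K, hK, rfl⟩ := mem_image.1 hr
      have : ∀ f, Good f (cK K) fun _ => 0 := fun f a b hab e _ _ _ =>
        ((cK_ok K hK).2.1 a b hab e).symm
      exact ⟨⟨p1 _ _ (this f), p2 _ _ (this f')⟩, card_ker _ (cK_ok K hK).1⟩
  have : Finite (Setoid (Fin 7)) :=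
    Finite.of_injective (fun r => r.r) fun a b e =>
      Setoid.ext fun i j => iff_of_eq (congrFun (congrFun e i) j)
  have h4 := Set.ncard_le_ncard h3
  rwa [Set.ncard_coe_finset, card_insert_of_notMem h2, h1] at h4

lemma cat0 : IsCat C0 := by
  have h : ∀ v : Fin 12, v ∉ Set.range lf ↔ v.1 < 5 := by
    simp only [Set.mem_range]
    decide
  refine ⟨⟨⟨fun v => ⟨v.1.1, (h _).1 v.2⟩, fun t => ⟨⟨t.1, by
    have := t.2; change _ < 12; omega⟩, (h _).2 t.2⟩, fun _ => rfl, fun _ => rfl⟩, ?_⟩⟩
  rintro ⟨a, ha⟩ ⟨b, hb⟩
  rw [SimpleGraph.pathGraph_adj]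
  have : ∀ a b : Fin 12, a.1 < 5 → b.1 < 5 →
    (a.1 + 1 = b.1 ∨ b.1 + 1 = a.1 ↔ (pg parC).Adj a b) := by decide
  exact this a b ((h _).1 ha) ((h _).1 hb)

theorem result : s 7 4 < c 7 4 := by
  have h1 : s 7 4 ≤ 35 := le_trans (Nat.sInf_le ⟨T0, F0, rfl⟩) upper
  have h2 : 36 ≤ c 7 4 := le_csInf ⟨_, C0, C0, cat0, cat0, rfl⟩ (by
    rintro _ ⟨T, F, hT, hF, rfl⟩
    exact lower T F hT hF)
  omega

end Pool.Agent.Results.MP_ae7dce_co.Cex74
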